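import Pool.Agent.H87.AN.TargetsC
import Pool.Agent.H80.AN.TargetsA

/-!
Board allh_modules (MP_2697e3_an), row ABS: the absorption, with weights.
-/

set_option autoImplicit false

open MeasureTheory Metric Set Filter Topology Pool.Agent.H87.SN Pool.Agent.H87.SH Pool.Agent.H87.AX
open Pool.Agent.H22.AN
open scoped ContDiff RealInnerProductSpace ENNReal

namespace Pool.Agent.H97.AN

private lemma sj_pos (j : ℕ) : 0 < sj j := by unfold sj; positivity

private lemma sj_add (i j : ℕ) : sj (i + j) = sj i * sj j := by unfold sj; rw [pow_add]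

/-- one of the three integrals -/
private lemma term_le {d : ℕ} (W c : ℝ≥0∞) (A : Set (V d)) (g w : V d → ℝ≥0∞)
    (hg : Measurable g) (hw : Measurable w) (h : ∀ z ∈ A, W ≤ w z) :
    W * (c * ∫⁻ y in A, 1 * g y) ≤ c * ∫⁻ y in A, w y * g y := by
  rw [mul_left_comm]
  refine mul_le_mul_right ?_ c
  calc W * ∫⁻ y in A, 1 * g y ≤ ∫⁻ y in A, W * (1 * g y) := lintegral_const_mul_le _ _
    _ ≤ ∫⁻ y in A, w y * g y := by
        refine setLIntegral_mono (hw.mul hg) fun z hz => ?_
        rw [one_mul]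
        exact mul_le_mul_left (h z hz) _

/-- The absorption, with weights. -/
theorem pf_ABS (hAB1 : T_AB1) (hAB2 : T_AB2) (hBTM : T_BTM) : T_ABS := by
  intro d Λ e e₀ hd he he₀
  obtain ⟨C1, hC1, H1⟩ := hAB1 d Λ e₀ hd he₀
  obtain ⟨C2, hC2, H2⟩ := hAB2 d Λ e (e₀ / 4 ^ d) hd he (by positivity)
  refine ⟨C1 + C1 * C2, by positivity, ?_⟩
  intro m G hG a b r K j ν η F ha hr hj hη hF f wl wr S hf hwl hwr hS hSb hth hlf hw hrec
  obtain ⟨hRm, hR2⟩ := H2 m G hG b r j η wr hr hj hη hwr
  have key : ∀ x ∈ ball (0 : V d) (25 / 16), Wc G K x (sj j) < ENNReal.ofReal ν →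
      ENNReal.ofReal ((sj (j + a + r) ^ 2)⁻¹) *
        (∫⁻ y in S ∩ ball x (sj (j + r) / 256), (fun y => wl y * f y) y) ≤
        Rw G e η b r wr x j := by
    intro x hx hW
    have h1 := hrec x hx hW
    set W : ℝ≥0∞ := ⨆ y ∈ S ∩ ball x (sj (j + r) / 256), wl y with hWdef
    have hWle : ∀ y ∈ S ∩ ball x (sj (j + r) / 256), wl y ≤ W := fun y hy =>
      le_iSup₂ (f := fun y (_ : y ∈ S ∩ ball x (sj (j + r) / 256)) => wl y) y hy
    have hs1 : sj (j + r) ≤ sj j / 256 := by
      rw [sj_add]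
      have h2 : sj r ≤ 1 / 256 := by
        unfold sj
        calc (1 / 2 : ℝ) ^ r ≤ (1 / 2) ^ 8 :=
              pow_le_pow_of_le_one (by norm_num) (by norm_num) hr
          _ = 1 / 256 := by norm_num
      have h3 := sj_pos j
      nlinarith
    have hs0 := sj_pos j
    have hWz : ∀ z : V d, dist z x < sj j / 16 → W ≤ wr z := by
      intro z hz
      refine iSup₂_le fun y hy => hw y hy.1 z ?_
      have h4 : dist y x < sj (j + r) / 256 := hy.2
      calc dist y z ≤ dist y x + dist z x := dist_triangle_right _ _ _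
        _ < sj j / 8 := by linarith
    have hB1 : ∀ z ∈ ball x (sj (j + r)), dist z x < sj j / 16 := by
      intro z hz
      have h5 : dist z x < sj (j + r) := hz
      linarith
    have hm : ∀ i : ℕ, Measurable (fun x => bs G x (sj i)) := fun i =>
      (hBTM d m G hG.memG (sj i) (sj_pos i)).2
    calc ENNReal.ofReal ((sj (j + a + r) ^ 2)⁻¹) *
          (∫⁻ y in S ∩ ball x (sj (j + r) / 256), wl y * f y)
        ≤ ENNReal.ofReal ((sj (j + a + r) ^ 2)⁻¹) *
          (∫⁻ y in S ∩ ball x (sj (j + r) / 256), W * f y) := by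
          refine mul_le_mul_right ?_ _
          exact setLIntegral_mono (hf.const_mul W) fun y hy => mul_le_mul_left (hWle y hy) _
      _ = W * (ENNReal.ofReal ((sj (j + a + r) ^ 2)⁻¹) *
          (∫⁻ y in S ∩ ball x (sj (j + r) / 256), f y)) := by
          rw [lintegral_const_mul W hf, mul_left_comm]
      _ ≤ W * Rw G e η b r (fun _ => 1) x j := mul_le_mul_right h1 _
      _ ≤ Rw G e η b r wr x j := by
          unfold Rw
          rw [mul_left_comm]
          refine mul_le_mul_right ?_ _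
          rw [mul_add, mul_add]
          refine add_le_add (add_le_add ?_ ?_) ?_
          · exact term_le W _ _ _ wr (hm _) hwr fun z hz => hWz z (hB1 z hz.1)
          · exact term_le W _ _ _ wr (hm _) hwr fun z hz => hWz z (hB1 z hz.1)
          · exact term_le W _ _ _ wr (hm _) hwr fun z hz => hWz z hz.1
  have h6 := H1 m G hG a r K j ν F ha hr hj hF (fun y => wl y * f y)
    (fun x => Rw G e η b r wr x j) S (hwl.mul hf) hRm hS hSb hth hlf key
  refine h6.trans (add_le_add ?_ ?_)
  · refine mul_le_mul_left (ENNReal.ofReal_le_ofReal ?_) _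
    have h7 : 0 ≤ C1 * C2 * F * 4 ^ r := by positivity
    nlinarith
  · calc ENNReal.ofReal (C1 * (sj (j + r) ^ (d + 2))⁻¹) *
          (∫⁻ x in {x : V d | x ∈ ball 0 (25 / 16) ∧ e₀ / 4 ^ d ≤ th G x (sj (j + r))},
            Rw G e η b r wr x j)
        = ENNReal.ofReal C1 * (ENNReal.ofReal ((sj (j + r) ^ (d + 2))⁻¹) *
          (∫⁻ x in {x : V d | x ∈ ball 0 (25 / 16) ∧ e₀ / 4 ^ d ≤ th G x (sj (j + r))},
            Rw G e η b r wr x j)) := by
          rw [ENNReal.ofReal_mul hC1, mul_assoc]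
      _ ≤ ENNReal.ofReal C1 * (ENNReal.ofReal (C2 * η) *
          (Kw G e wr (j + b + r) + Kw G e wr (j + r) + Kw G e wr (j + 3))) :=
          mul_le_mul_right hR2 _
      _ = ENNReal.ofReal (C1 * (C2 * η)) *
          (Kw G e wr (j + b + r) + Kw G e wr (j + r) + Kw G e wr (j + 3)) := by
          rw [ENNReal.ofReal_mul hC1, mul_assoc]
      _ ≤ ENNReal.ofReal ((C1 + C1 * C2) * η) *
          (Kw G e wr (j + b + r) + Kw G e wr (j + r) + Kw G e wr (j + 3)) := by
          refine mul_le_mul_left (ENNReal.ofReal_le_ofReal ?_) _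
          have h8 : 0 ≤ C1 * η := mul_nonneg hC1 hη
          nlinarith

end Pool.Agent.H97.AN
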