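import Pool.Agent.H22.AN.TB3
import Pool.Agent.H80.AN.TargetsA

/-!
Board allh_modules (MP_2697e3_an), row KNS: both inequalities, standard plane.
-/

set_option autoImplicit false

open MeasureTheory Metric Set Filter Topology Pool.Agent.H87.SN Pool.Agent.H87.SH Pool.Agent.H87.AX
open Pool.Agent.H22.AN
open scoped ContDiff RealInnerProductSpace ENNReal

namespace Pool.Agent.H97.AN.KNS

private lemma bb_facts (d : ℕ) (hd : 1 ≤ d) : 1 ≤ bb d ∧ bb d ≤ 2 ∧ bb d = 1 + (2 - bb d) * d := by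
  have h1 : (1 : ℝ) ≤ d := by exact_mod_cast hd
  have h2 : (0 : ℝ) < (d : ℝ) + 1 := by linarith
  refine ⟨?_, ?_, ?_⟩
  · unfold bb
    rw [le_div_iff₀ h2]
    linarith
  · unfold bb
    rw [div_le_iff₀ h2]
    linarith
  · unfold bb
    field_simp
    ring

/-- the coefficients -/
private lemma coef (d : ℕ) (hd : 1 ≤ d) (σ h r : ℝ) (hσ0 : 0 < σ) (hσ : σ ≤ 1 / 64)
    (hh : h = σ ^ (4 * d + 3)) (hr : r = h ^ (2 - bb d) * σ ^ (2 * bb d)) :
    0 < r ∧ r ≤ 1 / 64 ∧ h ^ bb d / (σ ^ bb d * h ^ 2) * r = σ ^ bb d ∧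
    h ^ bb d / (σ ^ bb d * h ^ 2) * ((r ^ d)⁻¹ * h ^ 2) ≤ σ ∧ σ ^ bb d ≤ σ := by
  obtain ⟨hb1, hb2, hb3⟩ := bb_facts d hd
  set b := bb d with hb
  have hσ1 : σ ≤ 1 := by linarith
  have hh0 : 0 < h := by rw [hh]; positivity
  have hh1 : h ≤ 1 := by rw [hh]; exact pow_le_one₀ hσ0.le hσ1
  have hr0 : 0 < r := by rw [hr]; positivity
  have hA : (0 : ℝ) < h ^ b := Real.rpow_pos_of_pos hh0 b
  have hB : (0 : ℝ) < σ ^ b := Real.rpow_pos_of_pos hσ0 b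
  refine ⟨hr0, ?_, ?_, ?_, ?_⟩
  · have h1 : h ^ (2 - b) ≤ 1 := Real.rpow_le_one hh0.le hh1 (by linarith)
    have h2 : σ ^ (2 * b) ≤ σ := by
      calc σ ^ (2 * b) ≤ σ ^ (1 : ℝ) :=
            Real.rpow_le_rpow_of_exponent_ge hσ0 hσ1 (by linarith)
        _ = σ := Real.rpow_one σ
    have h3 : 0 ≤ h ^ (2 - b) := (Real.rpow_pos_of_pos hh0 _).le
    have h4 : 0 ≤ σ ^ (2 * b) := (Real.rpow_pos_of_pos hσ0 _).le
    calc r = h ^ (2 - b) * σ ^ (2 * b) := hr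
      _ ≤ 1 * σ := mul_le_mul h1 h2 h4 zero_le_one
      _ ≤ 1 / 64 := by linarith
  · have h5 : h ^ b * h ^ (2 - b) = h ^ 2 := by
      rw [← Real.rpow_add hh0, ← Real.rpow_natCast]
      congr 1
      push_cast
      ring
    have h6 : σ ^ (2 * b) = σ ^ b * σ ^ b := by
      rw [← Real.rpow_add hσ0]
      congr 1
      ring
    rw [hr, h6]
    have h7 : h ^ b / (σ ^ b * h ^ 2) * (h ^ (2 - b) * (σ ^ b * σ ^ b)) =
        (h ^ b * h ^ (2 - b)) * σ ^ b / h ^ 2 := by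
      field_simp
    rw [h7, h5]
    field_simp
  · have h8 : r ^ d = h ^ ((2 - b) * d) * σ ^ (2 * b * d) := by
      rw [hr, mul_pow, ← Real.rpow_natCast (h ^ (2 - b)), ← Real.rpow_mul hh0.le,
        ← Real.rpow_natCast (σ ^ (2 * b)), ← Real.rpow_mul hσ0.le]
    have h9 : h ^ b = h * h ^ ((2 - b) * d) := by
      have h10 : b = 1 + (2 - b) * d := hb3
      calc h ^ b = h ^ (1 + (2 - b) * d) := by rw [← h10]
        _ = h * h ^ ((2 - b) * d) := by rw [Real.rpow_add hh0, Real.rpow_one]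
    have h11 : h ≤ σ * (σ ^ b * σ ^ (2 * b * d)) := by
      have h12 : σ * (σ ^ b * σ ^ (2 * b * d)) = σ ^ (1 + (b + 2 * b * d)) := by
        rw [Real.rpow_add hσ0, Real.rpow_add hσ0, Real.rpow_one]
      rw [h12, hh, ← Real.rpow_natCast]
      refine Real.rpow_le_rpow_of_exponent_ge hσ0 hσ1 ?_
      push_cast
      have h13 : (0 : ℝ) ≤ d := Nat.cast_nonneg d
      nlinarith
    have hC : (0 : ℝ) < h ^ ((2 - b) * d) := Real.rpow_pos_of_pos hh0 _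
    have hD : (0 : ℝ) < σ ^ (2 * b * d) := Real.rpow_pos_of_pos hσ0 _
    have h14 : h ^ b / (σ ^ b * h ^ 2) * ((r ^ d)⁻¹ * h ^ 2) = h ^ b / (σ ^ b * r ^ d) := by
      field_simp
    rw [h14, div_le_iff₀ (by positivity), h8, h9]
    calc h * h ^ ((2 - b) * d) ≤ (σ * (σ ^ b * σ ^ (2 * b * d))) * h ^ ((2 - b) * d) :=
          mul_le_mul_of_nonneg_right h11 hC.le
      _ = σ * (σ ^ b * (h ^ ((2 - b) * d) * σ ^ (2 * b * d))) := by ring
  · calc σ ^ b ≤ σ ^ (1 : ℝ) := Real.rpow_le_rpow_of_exponent_ge hσ0 hσ1 hb1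
      _ = σ := Real.rpow_one σ

/-- Both inequalities, standard plane. -/
theorem pf_KNS (hKST : T_KST) (hNSH : T_NSH) : T_KNS := by
  intro d L hd hL
  obtain ⟨δ, C1, hδ, hC1, H1⟩ := hKST d L hd hL
  obtain ⟨C2, hC2, H2⟩ := hNSH d
  refine ⟨δ, C1 * C2 + C1, hδ, by positivity, ?_⟩
  intro m Λ ε U u G hS q hq hneck
  set σ := shq q with hσdef
  set h := hhq d q with hhdef
  have hσ4 : σ = (1 / 4) ^ q := by
    rw [hσdef]
    unfold shq
    rw [pow_mul]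
    norm_num
  have hσ0 : 0 < σ := by rw [hσ4]; positivity
  have hσs : σ ≤ 1 / 4096 := by
    rw [hσ4]
    calc (1 / 4 : ℝ) ^ q ≤ (1 / 4) ^ 6 := pow_le_pow_of_le_one (by norm_num) (by norm_num) hq
      _ = 1 / 4096 := by norm_num
  have hh : h = σ ^ (4 * d + 3) := by
    rw [hhdef, hσdef]
    unfold shq hhq
    rw [← pow_mul]
    congr 1
    ring
  have hh0 : 0 < h := by rw [hh]; positivity
  have h4h : 4 * h ≤ σ := by
    have h1 : h ≤ σ ^ 2 := by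
      rw [hh]
      exact pow_le_pow_of_le_one hσ0.le (by linarith) (by omega)
    nlinarith
  have hh64 : h ≤ 1 / 64 := by linarith
  set r := h ^ (2 - bb d) * σ ^ (2 * bb d) with hrdef
  obtain ⟨hr0, hr1, e1, e2, e3⟩ := coef d hd σ h r hσ0 (by linarith) hh hrdef
  have k1 := H1 m Λ ε U u G hS σ h hh0 h4h (by linarith) hneck
  have k2 := H2 m G hS.gd.memG hS.gd.stat h r hh0 hh64 hr0 hr1
  set X := ∫⁻ x in {x : V d | x ∈ ball 0 (1 / 4) ∧ rho x < 2 * h}, ENNReal.ofReal (rho x ^ 2) ∂(mu G)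
    with hX
  set W := ∫⁻ x in ball (0 : V d) (1 / 2), ENNReal.ofReal (rho x ^ 2) ∂(mu G) with hW
  have hW4 : ∫⁻ x in ball (0 : V d) (1 / 4), ENNReal.ofReal (rho x ^ 2) ∂(mu G) ≤ W :=
    lintegral_mono_set (ball_subset_ball (by norm_num))
  set A := ENNReal.ofReal ((h ^ 2)⁻¹) * ∫⁻ y in {y : V d | rho y < h / 8 ∧ ‖zp y‖ < 5 / 16},
    (ENNReal.ofReal ((h ^ (d + 2))⁻¹) *
      ∫⁻ x in ball y (6 * h), ENNReal.ofReal (rho x ^ 2) ∂(mu G)) ^ (1 / 2 : ℝ) with hA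
  have hB : ENNReal.ofReal ((h ^ 2)⁻¹) * ∫⁻ y in {y : V d | rho y < h / 8 ∧ ‖zp y‖ < 5 / 16},
    (ENNReal.ofReal ((h ^ d)⁻¹) *
      ∫⁻ x in ball y (6 * h), ENNReal.ofReal (rho x ^ 2) ∂(mu G)) ^ (1 / 2 : ℝ) =
      ENNReal.ofReal h * A := by
    have h3 : ∀ I : ℝ≥0∞, (ENNReal.ofReal ((h ^ d)⁻¹) * I) ^ (1 / 2 : ℝ) =
        ENNReal.ofReal h * (ENNReal.ofReal ((h ^ (d + 2))⁻¹) * I) ^ (1 / 2 : ℝ) := by
      intro I
      have h4 : (h ^ d)⁻¹ = h ^ 2 * (h ^ (d + 2))⁻¹ := by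
        rw [pow_add]
        field_simp
      rw [h4, ENNReal.ofReal_mul (by positivity), mul_assoc,
        ENNReal.mul_rpow_of_nonneg _ _ (by norm_num), ENNReal.ofReal_rpow_of_nonneg (by positivity)
        (by norm_num), ← Real.sqrt_eq_rpow, Real.sqrt_sq hh0.le]
    simp_rw [h3]
    rw [lintegral_const_mul' _ _ ENNReal.ofReal_ne_top, hA, mul_left_comm]
  rw [hB] at k2
  have e0 : 0 ≤ h ^ bb d / (σ ^ bb d * h ^ 2) := by positivity
  set c1 := h ^ bb d / (σ ^ bb d * h ^ 2) with hc1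
  have hσb : 0 ≤ σ ^ bb d := by positivity
  calc ENNReal.ofReal ((σ ^ 2)⁻¹) * (∫⁻ x in {x : V d | x ∈ ball 0 (1 / 16) ∧
        rho x < 10 * σ}, ENNReal.ofReal (rho x ^ 2) ∂(mu G))
      ≤ ENNReal.ofReal C1 * (ENNReal.ofReal c1 * X + ENNReal.ofReal (σ ^ bb d) *
          ∫⁻ x in ball (0 : V d) (1 / 4), ENNReal.ofReal (rho x ^ 2) ∂(mu G)) := k1
    _ ≤ ENNReal.ofReal C1 * (ENNReal.ofReal c1 * (ENNReal.ofReal C2 *
          (ENNReal.ofReal ((r ^ d)⁻¹) * (ENNReal.ofReal h * A) ^ 2 + ENNReal.ofReal r * W)) +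
          ENNReal.ofReal (σ ^ bb d) * W) := by gcongr
    _ = ENNReal.ofReal (C1 * C2 * (c1 * ((r ^ d)⁻¹ * h ^ 2))) * A ^ 2 +
          (ENNReal.ofReal (C1 * C2 * (c1 * r)) + ENNReal.ofReal (C1 * σ ^ bb d)) * W := by
        have g1 : ENNReal.ofReal (C1 * C2 * (c1 * ((r ^ d)⁻¹ * h ^ 2))) = ENNReal.ofReal C1 *
            ENNReal.ofReal C2 * (ENNReal.ofReal c1 * (ENNReal.ofReal ((r ^ d)⁻¹) *
              ENNReal.ofReal h ^ 2)) := by
          rw [ENNReal.ofReal_mul (mul_nonneg hC1 hC2), ENNReal.ofReal_mul hC1,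
            ENNReal.ofReal_mul e0, ENNReal.ofReal_mul (by positivity), ENNReal.ofReal_pow hh0.le]
        have g2 : ENNReal.ofReal (C1 * C2 * (c1 * r)) = ENNReal.ofReal C1 *
            ENNReal.ofReal C2 * (ENNReal.ofReal c1 * ENNReal.ofReal r) := by
          rw [ENNReal.ofReal_mul (mul_nonneg hC1 hC2), ENNReal.ofReal_mul hC1,
            ENNReal.ofReal_mul e0]
        have g3 : ENNReal.ofReal (C1 * σ ^ bb d) = ENNReal.ofReal C1 *
            ENNReal.ofReal (σ ^ bb d) := ENNReal.ofReal_mul hC1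
        rw [g1, g2, g3]
        ring
    _ ≤ ENNReal.ofReal ((C1 * C2 + C1) * (1 / 4) ^ q) * A ^ 2 +
          ENNReal.ofReal ((C1 * C2 + C1) * (1 / 4) ^ q) * W := by
        rw [← ENNReal.ofReal_add (by positivity) (by positivity)]
        have hCC : 0 ≤ C1 * C2 := mul_nonneg hC1 hC2
        refine add_le_add (mul_le_mul_left (ENNReal.ofReal_le_ofReal ?_) _)
          (mul_le_mul_left (ENNReal.ofReal_le_ofReal ?_) _)
        · rw [← hσ4]
          calc C1 * C2 * (c1 * ((r ^ d)⁻¹ * h ^ 2)) ≤ C1 * C2 * σ :=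
                mul_le_mul_of_nonneg_left e2 hCC
            _ ≤ (C1 * C2 + C1) * σ := by nlinarith
        · rw [← hσ4, e1]
          calc C1 * C2 * σ ^ bb d + C1 * σ ^ bb d ≤ C1 * C2 * σ + C1 * σ :=
                add_le_add (mul_le_mul_of_nonneg_left e3 hCC) (mul_le_mul_of_nonneg_left e3 hC1)
            _ = (C1 * C2 + C1) * σ := by ring
    _ = ENNReal.ofReal ((C1 * C2 + C1) * (1 / 4) ^ q) * (A ^ 2 + W) := by rw [mul_add]

end Pool.Agent.H97.AN.KNS
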